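import Pool.Agent.Helper17.RZ.Sch.St

/-!
# RZ-S8 : a rational scheme has a purely transcendental function field
-/

set_option autoImplicit false

open AlgebraicGeometry CategoryTheory TopologicalSpace Opposite

namespace Pool.Agent.Helper17.RZ.Sch

universe u

noncomputable section

/-- the constants in the local ring of a point -/
def h36kst {k : Type u} [Field k] {S : Scheme.{u}} (f : S ⟶ Spec (CommRingCat.of k)) (x : S) :
    k →+* S.presheaf.stalk x :=
  ((Scheme.ΓSpecIso (CommRingCat.of k)).inv ≫ f.appTop ≫ S.presheaf.germ ⊤ x trivial).hom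

/-- an open immersion induces isomorphisms of the local rings -/
theorem h36_open {k : Type u} [Field k] {S T : Scheme.{u}} (f : S ⟶ Spec (CommRingCat.of k))
    (g : T ⟶ S) [IsOpenImmersion g] (x : T) (y : S) (hy : g x = y) (f' : T ⟶ Spec (CommRingCat.of k))
    (hf : g ≫ f = f') :
    ∃ φ : S.presheaf.stalk y ≃+* T.presheaf.stalk x, ∀ c : k, φ (h36kst f y c) = h36kst f' x c := by
  subst hy hf
  have : IsIso (g.stalkMap x) := inferInstance
  refine ⟨(asIso (g.stalkMap x)).commRingCatIsoToRingEquiv, fun c => ?_⟩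
  exact Scheme.Hom.germ_stalkMap_apply g ⊤ x trivial _

/-- the function field of an affine integral scheme -/
theorem h36_aff {k : Type u} [Field k] (A : CommRingCat.{u}) [IsDomain A] (a : k →+* A) :
    ∃ φ : (Spec A).presheaf.stalk (genericPoint (Spec A)) ≃+* FractionRing A,
      ∀ c : k, φ (h36kst (Spec.map (CommRingCat.ofHom a)) _ c) =
        algebraMap A (FractionRing A) (a c) := by
  let e := FractionRing.algEquiv A (Spec A).functionField
  refine ⟨e.symm.toRingEquiv, fun c => ?_⟩
  change e.symm _ = _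
  rw [AlgEquiv.symm_apply_eq, AlgEquiv.commutes]
  have h := Scheme.ΓSpecIso_inv_naturality (CommRingCat.ofHom a)
  unfold h36kst
  rw [← Category.assoc, ← h]
  rfl

theorem ratS : RatS.{u} := by
  intro k _ X hX
  obtain ⟨n, U, V, e, hU, he⟩ := hX
  have hne : Nonempty U := by
    obtain ⟨x, hx⟩ := hU
    exact ⟨⟨x, hx⟩⟩
  let R := MvPolynomial (Fin n) k
  let g : U.toScheme ⟶ Spec (CommRingCat.of R) := e.hom ≫ V.ι
  have h1 : U.ι (genericPoint U.toScheme) = genericPoint X.Z := genericPoint_eq_of_isOpenImmersion U.ι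
  have h2 : g (genericPoint U.toScheme) = genericPoint (Spec (CommRingCat.of R)) :=
    genericPoint_eq_of_isOpenImmersion g
  obtain ⟨φ, hφ⟩ := h36_open X.f U.ι (genericPoint U.toScheme) _ h1 (U.ι ≫ X.f) rfl
  obtain ⟨ψ, hψ⟩ := h36_open (Spec.map (CommRingCat.ofHom (algebraMap k R))) g
    (genericPoint U.toScheme) _ h2 (U.ι ≫ X.f) (by
      rw [← he]
      simp only [g, Category.assoc]
      rfl)
  have : IsDomain (CommRingCat.of R) := inferInstanceAs (IsDomain R)
  obtain ⟨χ, hχ⟩ := h36_aff (CommRingCat.of R) (algebraMap k R)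
  refine ⟨n, ⟨AlgEquiv.ofRingEquiv (f := (φ.trans ψ.symm).trans χ) ?_⟩⟩
  intro c
  have h3 : algebraMap k X.K c = h36kst X.f (genericPoint X.Z) c := rfl
  rw [h3]
  change χ (ψ.symm (φ _)) = _
  rw [hφ, ← hψ, RingEquiv.symm_apply_apply, hχ]
  rfl

end

end Pool.Agent.Helper17.RZ.Sch
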